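import Pool.Agent.H19M.Stm

/-! # Project H19M, piece ULT: compactness (helper86) -/

set_option autoImplicit false

open Filter Topology Pool.Agent.N709.UM

universe u

namespace Pool.Agent.H19M

/-- ULT -/
theorem ult : S_ULT.{u} := by
  intro H _ ρ F _ κ c l hI
  have hI' : ∀ E : Finset (H × ℤ), ∃ᶠ x in F, ∀ e ∈ E, ∀ᶠ b in F,
      l ≤ ρ (e.1 * x ^ (c + κ * e.2) * b ^ κ) := by
    intro E hE
    apply hI
    refine ⟨E, hE.mono fun x hx => ?_⟩
    by_contra hcon
    apply hx
    intro e he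
    by_contra h1
    apply hcon
    refine ⟨e, he, fun h2 => h1 (h2.mono fun b hb => not_lt.1 hb)⟩
  let T : Finset (H × ℤ) → Set H := fun E => {x | ∀ e ∈ E, ∀ᶠ b in F,
      l ≤ ρ (e.1 * x ^ (c + κ * e.2) * b ^ κ)}
  have hne : NeBot (⨅ E : Finset (H × ℤ), F ⊓ 𝓟 (T E)) := by
    classical
    refine Filter.iInf_neBot_of_directed' ?_ fun E => ?_
    · intro E E'
      refine ⟨E ∪ E', ?_, ?_⟩
      · refine inf_le_inf_left F (principal_mono.2 fun x hx e he => ?_)
        exact hx e (Finset.mem_union_left _ he)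
      · refine inf_le_inf_left F (principal_mono.2 fun x hx e he => ?_)
        exact hx e (Finset.mem_union_right _ he)
    · exact Filter.frequently_mem_iff_neBot.1 (hI' E)
  refine ⟨Ultrafilter.of (⨅ E : Finset (H × ℤ), F ⊓ 𝓟 (T E)), ?_, ?_⟩
  · exact (Ultrafilter.of_le _).trans ((iInf_le _ (∅ : Finset (H × ℤ))).trans inf_le_left)
  · intro u h
    have h1 : T {(h, u)} ∈ (Ultrafilter.of (⨅ E : Finset (H × ℤ), F ⊓ 𝓟 (T E)) : Filter H) := by
      apply (Ultrafilter.of_le _).trans ((iInf_le _ ({(h, u)} : Finset (H × ℤ))).trans inf_le_right)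
      exact mem_principal_self _
    filter_upwards [h1] with x hx
    exact hx (h, u) (Finset.mem_singleton_self _)

end Pool.Agent.H19M
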